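import Pool.Agent.Run7.h77.RO.Defs

/-!
Piece DR0 of project RO (helper77), written by helper989: degrees in class `r 0`.
-/

set_option autoImplicit false

namespace Run7.h989.RO

open Run7.h77.RO

theorem Hn_symm {w : ℕ} (H : SimpleGraph (Fin w)) {x y : ℕ} (h : Hn H x y) : Hn H y x := by
  obtain ⟨hx, hy, h⟩ := h
  exact ⟨hy, hx, h.symm⟩

theorem Hn_comm {w : ℕ} (H : SimpleGraph (Fin w)) (x y : ℕ) : Hn H x y ↔ Hn H y x :=
  ⟨Hn_symm H, Hn_symm H⟩

open Classical in
theorem t_DR0 (hHN : S_HN) : S_DR0 := by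
  intro p B w v m D H hP z hz
  have hw := hP.hw
  have hB1 : 1 ≤ B := by
    rw [hP.hB]
    have h1 : 1 ≤ v := by have := hP.hv; omega
    have h2 := hP.hm
    have : 1 * 1 ≤ v * m := Nat.mul_le_mul h1 h2
    nlinarith
  obtain ⟨Z, hZ⟩ : ∃ Z, Z = B * w := ⟨_, rfl⟩
  have hN : 2 * B * w = 2 * Z := by rw [hZ, mul_assoc]
  have hwZ : w ≤ Z := by
    rw [hZ]
    calc w = 1 * w := (one_mul w).symm
      _ ≤ B * w := Nat.mul_le_mul_right w hB1
  obtain ⟨Q, hQ⟩ : ∃ Q, Q = z / w * w := ⟨_, rfl⟩
  have hQz : Q ≤ z := by rw [hQ]; exact Nat.div_mul_le_self z w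
  have hzQ : z < Q + w := by
    rw [hQ]
    have := Nat.lt_div_mul_add (a := z) hw
    exact this
  have hc : z % w < w := Nat.mod_lt z hw
  have hqB : z / w < 2 * B := (Nat.div_lt_iff_lt_mul hw).2 hz
  have hQN : Q + w ≤ 2 * Z := by
    rw [← hN, hQ, ← Nat.add_one_mul]
    exact Nat.mul_le_mul_right w hqB
  have hZQ : Z ≤ z → Z ≤ Q := by
    intro h
    rw [hZ] at h ⊢
    rw [hQ]
    exact Nat.mul_le_mul_right w ((Nat.le_div_iff_mul_le hw).2 h)
  have hgt : ∀ y, z / w < y / w ↔ Q + w ≤ y := by
    intro y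
    rw [hQ, ← Nat.add_one_mul, ← Nat.le_div_iff_mul_le hw]
    exact Iff.rfl
  have hlt : ∀ y, y / w < z / w ↔ y < Q := by
    intro y
    rw [hQ]
    exact Nat.div_lt_iff_lt_mul hw
  -- sparse counts
  have hs : ∀ M, 2 * Z ≤ M → ((Finset.range M).filter (fun y => z / w = y / w ∧ Hn H (z % w) (y % w))).card = D := by
    intro M hM
    refine hHN w D H hP.hreg (z % w) (z / w) M hc ?_
    rw [Nat.add_one_mul, ← hQ]
    omega
  have c0 : cnt B w v H (.r 0 : Kd p) z (.r 0) = 0 := by
    unfold cnt
    rw [Finset.card_eq_zero, Finset.filter_eq_empty_iff]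
    intro y _
    simp [A2, E]
  have c1 : cnt B w v H (.r 0 : Kd p) z (.r 1) = (if z < Z then z + 1 - w else 2 * Z - (Q + w)) + D := by
    have e : (Finset.range (sz B w v (.r 1 : Kd p))).filter (fun y => A2 B w v H (.r 0 : Kd p) z (.r 1) y) =
        Finset.Ico (if z < Z then 2 * Z + w - 1 - z else Q + w) (2 * Z) ∪
          (Finset.range (2 * Z)).filter (fun y => z / w = y / w ∧ Hn H (z % w) (y % w)) := by
      ext y
      simp only [Finset.mem_filter, Finset.mem_range, Finset.mem_union, Finset.mem_Ico, sz, hN]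
      have hA : A2 B w v H (.r 0 : Kd p) z (.r 1) y ↔
          ((Q + w ≤ y ∧ Z ≤ y ∧ (Z ≤ z ∨ 2 * Z + w - 1 ≤ z + y)) ∨ (z / w = y / w ∧ Hn H (z % w) (y % w))) := by
        have h1 : (1 : Fin 3) = 0 + 1 := by decide
        have h2 : ¬ (0 : Fin 3) = 1 + 1 := by decide
        have h3 : ¬ (0 : Fin 3) = 1 := by decide
        have h4 : ¬ (1 : Fin 3) = 0 := by decide
        simp only [A2, E, th, if_true, h1.symm, h2, h3, h4, ne_eq, not_false_eq_true, true_and, false_and, false_or,
          hgt, hN, ← hZ]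
        rw [Hn_comm H (y % w) (z % w), eq_comm (a := y / w)]
        tauto
      rw [hA]
      split_ifs with hzZ
      · constructor
        · rintro ⟨hy, h | h⟩
          · left; omega
          · right; exact ⟨hy, h⟩
        · rintro (h | h)
          · exact ⟨by omega, Or.inl (by omega)⟩
          · exact ⟨h.1, Or.inr h.2⟩
      · have := hZQ (by omega)
        constructor
        · rintro ⟨hy, h | h⟩
          · left; omega
          · right; exact ⟨hy, h⟩
        · rintro (h | h)
          · exact ⟨by omega, Or.inl (by omega)⟩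
          · exact ⟨h.1, Or.inr h.2⟩
    have hd : Disjoint (Finset.Ico (if z < Z then 2 * Z + w - 1 - z else Q + w) (2 * Z))
        ((Finset.range (2 * Z)).filter (fun y => z / w = y / w ∧ Hn H (z % w) (y % w))) := by
      rw [Finset.disjoint_left]
      intro y hy hy'
      rw [Finset.mem_Ico] at hy
      rw [Finset.mem_filter] at hy'
      have h5 : ¬ z / w < y / w := by rw [hy'.2.1]; exact lt_irrefl _
      rw [hgt] at h5
      split_ifs at hy <;> omega
    unfold cnt
    rw [e, Finset.card_union_of_disjoint hd, hs _ le_rfl, Nat.card_Ico]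
    congr 1
    split_ifs <;> omega
  have c2 : cnt B w v H (.r 0 : Kd p) z (.r 2) = (if z < Z then 0 else Q - (2 * Z - 1 - z)) + D := by
    have e : (Finset.range (sz B w v (.r 2 : Kd p))).filter (fun y => A2 B w v H (.r 0 : Kd p) z (.r 2) y) =
        Finset.Ico (if z < Z then Q else 2 * Z - 1 - z) Q ∪
          (Finset.range (2 * Z)).filter (fun y => z / w = y / w ∧ Hn H (z % w) (y % w)) := by
      ext y
      simp only [Finset.mem_filter, Finset.mem_range, Finset.mem_union, Finset.mem_Ico, sz, hN]
      have hA : A2 B w v H (.r 0 : Kd p) z (.r 2) y ↔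
          ((y < Q ∧ Z ≤ z ∧ (Z ≤ y ∨ 2 * Z - 1 ≤ y + z)) ∨ (z / w = y / w ∧ Hn H (z % w) (y % w))) := by
        have h1 : ¬ (2 : Fin 3) = 0 + 1 := by decide
        have h2 : (0 : Fin 3) = 2 + 1 := by decide
        have h3 : ¬ (0 : Fin 3) = 2 := by decide
        have h4 : ¬ (2 : Fin 3) = 0 := by decide
        simp only [A2, E, th, if_true, h1, h2.symm, h3, h4, if_false, ne_eq, not_false_eq_true, true_and, false_and,
          false_or, hlt, hN, ← hZ]
        rw [Hn_comm H (y % w) (z % w), eq_comm (a := y / w)]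
        tauto
      rw [hA]
      split_ifs with hzZ
      · constructor
        · rintro ⟨hy, h | h⟩
          · omega
          · right; exact ⟨hy, h⟩
        · rintro (h | h)
          · omega
          · exact ⟨h.1, Or.inr h.2⟩
      · have := hZQ (by omega)
        constructor
        · rintro ⟨hy, h | h⟩
          · left; omega
          · right; exact ⟨hy, h⟩
        · rintro (h | h)
          · exact ⟨by omega, Or.inl (by omega)⟩
          · exact ⟨h.1, Or.inr h.2⟩
    have hd : Disjoint (Finset.Ico (if z < Z then Q else 2 * Z - 1 - z) Q)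
        ((Finset.range (2 * Z)).filter (fun y => z / w = y / w ∧ Hn H (z % w) (y % w))) := by
      rw [Finset.disjoint_left]
      intro y hy hy'
      rw [Finset.mem_Ico] at hy
      rw [Finset.mem_filter] at hy'
      have h5 : ¬ y / w < z / w := by rw [hy'.2.1]; exact lt_irrefl _
      rw [hlt] at h5
      omega
    unfold cnt
    rw [e, Finset.card_union_of_disjoint hd, hs _ le_rfl, Nat.card_Ico]
    congr 1
    split_ifs <;> omega
  have ca : ∀ i : Fin p, cnt B w v H (.r 0 : Kd p) z (.a i) = D := by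
    intro i
    rw [← hs (2 * Z + w) (by omega)]
    unfold cnt
    congr 1
    ext y
    simp only [Finset.mem_filter, Finset.mem_range, sz, hN, A2, E, or_false]
  have cb : ∀ i : Fin p, cnt B w v H (.r 0 : Kd p) z (.b i) = D := by
    intro i
    have h := hHN w D H hP.hreg (z % w) (z / w + 1) (2 * Z + w) hc (by
      rw [Nat.add_one_mul, Nat.add_one_mul, ← hQ]
      omega)
    rw [← h]
    unfold cnt
    congr 1
    ext y
    simp only [Finset.mem_filter, Finset.mem_range, sz, hN, A2, E, or_false]
  have cu0 : cnt B w v H (.r 0 : Kd p) z .u0 = min (z + 1) w := by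
    have e : (Finset.range (sz B w v (.u0 : Kd p))).filter (fun y => A2 B w v H (.r 0 : Kd p) z .u0 y) =
        Finset.range (min (z + 1) w) := by
      ext y
      simp only [Finset.mem_filter, Finset.mem_range, sz, A2, E, false_or, true_and]
      omega
    unfold cnt
    rw [e, Finset.card_range]
  have cu1 : cnt B w v H (.r 0 : Kd p) z .u1 = 0 := by
    unfold cnt
    rw [Finset.card_eq_zero, Finset.filter_eq_empty_iff]
    intro y _
    have h3 : ¬ (0 : Fin 3) = 1 := by decide
    simp only [A2, E, h3, false_and, or_false, not_false_eq_true]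
  have cu2 : cnt B w v H (.r 0 : Kd p) z .u2 = 0 := by
    unfold cnt
    rw [Finset.card_eq_zero, Finset.filter_eq_empty_iff]
    intro y _
    have h3 : ¬ (0 : Fin 3) = 2 := by decide
    simp only [A2, E, h3, false_and, or_false, not_false_eq_true]
  have cl1 : cnt B w v H (.r 0 : Kd p) z .l1 = 0 := by
    unfold cnt
    rw [Finset.card_eq_zero, Finset.filter_eq_empty_iff]
    intro y _
    simp only [A2, E, or_false, not_false_eq_true]
  have cl2 : cnt B w v H (.r 0 : Kd p) z .l2 = 0 := by
    unfold cnt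
    rw [Finset.card_eq_zero, Finset.filter_eq_empty_iff]
    intro y _
    simp only [A2, E, or_false, not_false_eq_true]
  unfold dg
  simp only [c0, c1, c2, ca, cb, cu0, cu1, cu2, cl1, cl2, Finset.sum_const, Finset.card_univ, Fintype.card_fin,
    smul_eq_mul]
  have hr : (2 * p + 2) * D = 2 * (p * D) + 2 * D := by ring
  rw [hr]
  have hz' : z < 2 * Z := by rw [← hN]; exact hz
  split_ifs with hzZ
  · have : z + 1 - w + min (z + 1) w = z + 1 := by omega
    omega
  · have h1 := hZQ (by omega)
    have : min (z + 1) w = w := by omega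
    omega

end Run7.h989.RO
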